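import Pool.Agent.N488.SLX.Sym

/-!
# SLX-NEC: the Selmer classes satisfy the linear systems
-/

set_option autoImplicit false

namespace Pool.Agent.N488.SLX

open Finset
open Pool.Agent.N875.X15 (sq_cancel even_val val_zero val_one not_dvd_of_even Ram)
open Pool.Agent.N916.GB (Po Vt sy)
open Pool.Agent.N637.SLX (Ty pdr eS NS ES IsLk Rw dX dY S_NEC)
open Pool.Agent.N637.P21 (Cls loc_sign loc_ndvd loc_seven' loc_two loc_two_odd loc_dvd sq_neg7)
open Pool.Agent.TH841.SH (SelG LocC)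
open Pool.Agent.Y703.CQ (nr)

theorem isLk_iff {t : Bool} {r s : ZMod 2} {S : Finset ℕ} (y : ℕ → ZMod 2) :
    IsLk (NS t r s S) (fun p => y p.1) ↔ ∀ p ∈ Vt t S,
      ∑ q ∈ (Vt t S).erase p, (y q * sy r s q p + y p * sy r s p q) = 0 := by
  have key : ∀ p ∈ Vt t S,
      ∑ q : {x : ℕ // x ∈ Vt t S}, (y q.1 * sy r s q.1 p + y p * sy r s p q.1) =
      ∑ q ∈ (Vt t S).erase p, (y q * sy r s q p + y p * sy r s p q) := by
    intro p hp
    rw [Finset.sum_coe_sort (Vt t S) (fun q => y q * sy r s q p + y p * sy r s p q),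
      ← Finset.add_sum_erase _ _ hp]
    have : ∀ a : ZMod 2, a + a = 0 := by decide
    rw [this, zero_add]
  constructor
  · intro h p hp
    rw [← key p hp]
    exact h ⟨p, hp⟩
  · rintro h ⟨p, hp⟩
    have := h p hp
    rw [← key p hp] at this
    exact this

theorem rw_iff {t : Bool} {r s : ZMod 2} {S : Finset ℕ} (x y : ℕ → ZMod 2) :
    Rw (NS t r s S) (ES t r s S) (fun p => x p.1) (fun p => y p.1) ↔ ∀ p ∈ Vt t S,
      ∑ q ∈ (Vt t S).erase p, (x q + x p) * sy r s p q =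
        eS t r s S p * y p + eS t r s S p * ∑ q ∈ Vt t S, eS t r s S q * y q := by
  have hj : ∑ q : {x : ℕ // x ∈ Vt t S}, ES t r s S q * y q.1 =
      ∑ q ∈ Vt t S, eS t r s S q * y q :=
    Finset.sum_coe_sort (Vt t S) (fun q => eS t r s S q * y q)
  have key : ∀ p ∈ Vt t S,
      ∑ q : {x : ℕ // x ∈ Vt t S}, (x q.1 + x p) * sy r s p q.1 =
      ∑ q ∈ (Vt t S).erase p, (x q + x p) * sy r s p q := by
    intro p hp
    rw [Finset.sum_coe_sort (Vt t S) (fun q => (x q + x p) * sy r s p q),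
      ← Finset.add_sum_erase _ _ hp]
    have : ∀ a : ZMod 2, a + a = 0 := by decide
    rw [this, zero_mul, zero_add]
  unfold Rw
  rw [hj]
  constructor
  · intro h p hp
    rw [← key p hp]
    exact h ⟨p, hp⟩
  · rintro h ⟨p, hp⟩
    have := h p hp
    rw [← key p hp] at this
    exact this

/-- the local conditions -/
structure LocD (m d1 d2 : ℤ) : Prop where
  s1 : Squarefree d1
  s2 : Squarefree d2
  pos : 0 < d2
  supp : ∀ p : ℕ, p.Prime → p ≠ 7 → ((p : ℤ) ∣ d1 → Ram m p) ∧ ((p : ℤ) ∣ d2 → Ram m p)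
  supp7 : ¬ (7 : ℤ) ∣ m → ¬ (7 : ℤ) ∣ d2 ∧
    ((d2 % 7 = 1 ∨ d2 % 7 = 2 ∨ d2 % 7 = 4) ∧ ¬ (7 : ℤ) ∣ d1 ∨
    (d2 % 7 = 3 ∨ d2 % 7 = 5 ∨ d2 % 7 = 6) ∧ (7 : ℤ) ∣ d1)
  at2 : Ram m 2 → IsSquare (d1 : ℚ_[2]) ∨ IsSquare ((d1 : ℚ_[2]) * m)
  odd2 : m % 4 = 1 → d1 % 4 = 1
  dv : ∀ (p : ℕ) [Fact p.Prime], p ≠ 2 → (p : ℤ) ∣ m →
    (IsSquare (d1 : ℚ_[p]) ∧ IsSquare (d2 : ℚ_[p])) ∨
    (IsSquare ((d1 : ℚ_[p]) * (-7)) ∧ IsSquare ((d2 : ℚ_[p]) * (-m))) ∨
    (IsSquare ((d1 : ℚ_[p]) * m) ∧ IsSquare (d2 : ℚ_[p])) ∨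
    (IsSquare ((d1 : ℚ_[p]) * (-7 * m)) ∧ IsSquare ((d2 : ℚ_[p]) * (-m)))

theorem locD {m : ℤ} (hm : Cls m) {d1 d2 : ℤ} (h : (d1, d2) ∈ SelG 0 (9 * m) (-7 * m)) :
    LocD m d1 d2 := by
  obtain ⟨s1, s2, hR', hp⟩ := h
  simp only at s1 s2 hR' hp
  have hm0 : m ≠ 0 := hm.neg.ne
  have hsg := loc_sign hm.neg s2.ne_zero hR'
  refine ⟨s1, s2, hsg, ?_, ?_, ?_, ?_, ?_⟩
  · intro p hpp hp7
    have : Fact p.Prime := ⟨hpp⟩
    by_cases hpm : (p : ℤ) ∣ m
    · exact ⟨fun _ => Or.inl hpm, fun _ => Or.inl hpm⟩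
    by_cases hp2 : p = 2
    · subst hp2
      by_cases hm4 : m % 4 = 1
      · obtain ⟨h1, h2⟩ := loc_two_odd hm hm4 s1 s2 (hp 2)
        constructor
        · intro h3
          have : (2 : ℤ) ∣ d1 := by exact_mod_cast h3
          omega
        · intro h3
          exact absurd (by exact_mod_cast h3) h2
      · exact ⟨fun _ => Or.inr ⟨rfl, hm4⟩, fun _ => Or.inr ⟨rfl, hm4⟩⟩
    · obtain ⟨h1, h2⟩ := loc_ndvd hp2 hp7 hm hpm s1 s2 (hp p)
      exact ⟨fun h => absurd h h1, fun h => absurd h h2⟩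
  · exact fun h => loc_seven' (by have := hm.m7; omega) s1 s2 (hp 7)
  · intro hram
    rcases loc_two hm s1 (hp 2) with h1 | h1
    · exact h1
    · exfalso
      rcases hram with h2 | ⟨-, h2⟩
      · have : (2 : ℤ) ∣ m := by exact_mod_cast h2
        omega
      · omega
  · exact fun h4 => (loc_two_odd hm h4 s1 s2 (hp 2)).1
  · intro p hpp hp2 hpm
    exact loc_dvd hp2 hm.sqf hpm (hp p)

section

variable {V : Finset ℕ} {g : ℕ → ℤ} {m d1 d2 : ℤ}

theorem exists_Y (D : Dat V g m) (L : LocD m d1 d2) :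
    ∃ Y ⊆ V, ∏ p ∈ Y, (p : ℤ) = d2 ∧ ∀ p : ℕ, p.Prime → (p ∈ Y ↔ (p : ℤ) ∣ d2) := by
  refine ⟨d2.natAbs.primeFactors, fun p hp => ?_, ?_, fun p hp => ?_⟩
  · obtain ⟨h3, h4, -⟩ := Nat.mem_primeFactors.1 hp
    have h5 : (p : ℤ) ∣ d2 := Int.natCast_dvd.2 h4
    rw [← D.ram p h3]
    by_cases hp7 : p = 7
    · subst hp7
      left
      by_contra h7
      exact (L.supp7 (by exact_mod_cast h7)).1 (by exact_mod_cast h5)
    · exact (L.supp p h3 hp7).2 h5
  · have h1 : ∏ p ∈ d2.natAbs.primeFactors, p = d2.natAbs :=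
      Nat.prod_primeFactors_of_squarefree (Int.squarefree_natAbs.2 L.s2)
    have h2 : ((∏ p ∈ d2.natAbs.primeFactors, p : ℕ) : ℤ) = d2 := by
      rw [h1]
      exact Int.natAbs_of_nonneg L.pos.le
    rw [Nat.cast_prod] at h2
    exact h2
  · rw [Nat.mem_primeFactors]
    constructor
    · rintro ⟨-, h4, -⟩
      exact Int.natCast_dvd.2 h4
    · intro h
      exact ⟨hp, Int.natCast_dvd.1 h, Int.natAbs_ne_zero.2 L.s2.ne_zero⟩

theorem lk_odd (D : Dat V g m) (L : LocD m d1 d2) {Y : Finset ℕ} (hY : Y ⊆ V)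
    (hYd : ∏ p ∈ Y, (p : ℤ) = d2) {q : ℕ} [Fact q.Prime] (hq : q ∈ V) (hq2 : q ≠ 2) :
    ∑ p ∈ V.erase q, (ind Y p * ra q (p : ℤ) + ind Y q * ra q (g p)) = 0 := by
  obtain ⟨M, h1, h2⟩ := D.minus hq hq2
  rw [← h2 Y hY, hYd, h1 d2 L.s2.ne_zero]
  rcases L.dv q hq2 (D.dvd hq hq2) with h | h | h | h
  · exact Or.inl h.2
  · exact Or.inr h.2
  · exact Or.inl h.2
  · exact Or.inr h.2

end

theorem ind_zero {Y : Finset ℕ} {p : ℕ} (h : p ∉ Y) : ind Y p = 0 := by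
  unfold ind
  rw [if_neg h]

theorem ind_one {Y : Finset ℕ} {p : ℕ} (h : p ∈ Y) : ind Y p = 1 := by
  unfold ind
  rw [if_pos h]

/-- the last equation follows from the others -/
theorem last_eq {V : Finset ℕ} (a : ℕ → ℕ → ZMod 2) (k : ℕ)
    (h : ∀ p ∈ V, p ≠ k → ∑ q ∈ V.erase p, (a q p + a p q) = 0) (hk : k ∈ V) :
    ∑ q ∈ V.erase k, (a q k + a k q) = 0 := by
  have h2 : ∀ b : ZMod 2, b + b = 0 := by decide
  have key : ∀ p ∈ V, ∑ q ∈ V, (a q p + a p q) = ∑ q ∈ V.erase p, (a q p + a p q) := by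
    intro p hp
    rw [← Finset.add_sum_erase _ _ hp, h2, zero_add]
  have h3 : ∑ p ∈ V, ∑ q ∈ V, (a q p + a p q) = 0 := by
    simp only [Finset.sum_add_distrib]
    rw [Finset.sum_comm]
    exact h2 _
  rw [← key k hk]
  rw [← Finset.add_sum_erase _ _ hk] at h3
  rw [Finset.sum_eq_zero (s := V.erase k), add_zero] at h3
  · exact h3
  · intro p hp
    rw [key p (Finset.mem_of_mem_erase hp)]
    exact h p (Finset.mem_of_mem_erase hp) (Finset.ne_of_mem_erase hp)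

section

variable {t : Bool} {r s : ZMod 2} {S : Finset ℕ} {m d1 d2 : ℤ}

theorem lk_all (h : Ty t r s S m) (L : LocD m d1 d2) {Y : Finset ℕ} (hY : Y ⊆ Vt t S)
    (hYd : ∏ p ∈ Y, (p : ℤ) = d2) : ∀ p ∈ Vt t S,
      ∑ q ∈ (Vt t S).erase p, (ind Y q * sy r s q p + ind Y p * sy r s p q) = 0 := by
  have D := dat_of_ty h
  have hodd : ∀ p ∈ Vt t S, p ≠ 2 →
      ∑ q ∈ (Vt t S).erase p, (ind Y q * sy r s q p + ind Y p * sy r s p q) = 0 := by
    intro p hp hp2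
    have : Fact p.Prime := ⟨D.pr p hp⟩
    rw [← lk_odd D L hY hYd hp hp2]
    refine Finset.sum_congr rfl fun q hq => ?_
    have hqV := Finset.mem_of_mem_erase hq
    have hqp := Finset.ne_of_mem_erase hq
    rw [sy_nat (D.pr p hp) (D.pr q hqV) hp2 hqp.symm, sy_ra h hqV hp hqp]
  intro p hp
  by_cases hp2 : p = 2
  · exact last_eq (fun q p => ind Y q * sy r s q p) p (fun q hq hqp => hodd q hq (by omega)) hp
  · exact hodd p hp hp2

theorem eS_ne {p : ℕ} (hp : p ≠ 7) : eS t r s S p = nr 7 p := by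
  unfold eS
  rw [if_neg hp]

theorem nr72 : nr 7 2 = 0 := by
  unfold nr
  rw [if_pos ⟨3, by decide⟩]

/-- the sum of the labels -/
theorem j_mem (h : Ty t r s S m) (L : LocD m d1 d2) {Y : Finset ℕ} (hY : Y ⊆ Vt t S)
    (hYd : ∏ p ∈ Y, (p : ℤ) = d2) (h7 : 7 ∈ Vt t S) :
    ∑ q ∈ Vt t S, eS t r s S q * ind Y q = 0 := by
  have h1 := lk_all h L hY hYd 7 h7
  rw [← h1, ← Finset.add_sum_erase _ _ h7, Finset.sum_add_distrib, add_comm]
  congr 1
  · refine Finset.sum_congr rfl fun q hq => ?_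
    rw [eS_ne (Finset.ne_of_mem_erase hq), mul_comm]
    unfold sy
    rw [if_neg (by norm_num)]
  · unfold eS
    rw [if_pos rfl, ← Finset.mul_sum, mul_comm]

theorem jac7 {d : ℤ} : (d % 7 = 1 ∨ d % 7 = 2 ∨ d % 7 = 4 → jacobiSym d 7 = 1) ∧
    (d % 7 = 3 ∨ d % 7 = 5 ∨ d % 7 = 6 → jacobiSym d 7 = -1) := by
  rw [jacobiSym.mod_left]
  push_cast
  constructor
  · rintro (h | h | h) <;> rw [h] <;> norm_num
  · rintro (h | h | h) <;> rw [h] <;> norm_num

theorem j_not_mem (h : Ty t r s S m) (L : LocD m d1 d2) {Y : Finset ℕ} (hY : Y ⊆ Vt t S)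
    (hYd : ∏ p ∈ Y, (p : ℤ) = d2) (h7 : 7 ∉ Vt t S) :
    (∑ q ∈ Vt t S, eS t r s S q * ind Y q = 0 ∧ ¬ (7 : ℤ) ∣ d1) ∨
    (∑ q ∈ Vt t S, eS t r s S q * ind Y q = 1 ∧ (7 : ℤ) ∣ d1) := by
  have D := dat_of_ty h
  have hm7 : ¬ (7 : ℤ) ∣ m := by
    intro h8
    exact h7 ((D.ram 7 (by norm_num)).1 (Or.inl (by exact_mod_cast h8)))
  have hF : Nat.Prime 7 := by norm_num
  have : Fact (Nat.Prime 7) := ⟨hF⟩
  have hne : ∀ q ∈ Vt t S, q ≠ 7 := by
    rintro q hq rfl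
    exact h7 hq
  have e1 : ∑ q ∈ Vt t S, eS t r s S q * ind Y q = ∑ q ∈ Y, ra 7 (q : ℤ) := by
    rw [sum_ind hY]
    refine Finset.sum_congr rfl fun q hq => ?_
    rw [eS_ne (hne q hq), mul_comm, nr_ra (by norm_num)]
    intro h8
    exact hne q hq ((Nat.prime_dvd_prime_iff_eq hF (D.pr q hq)).1 h8).symm
  have e2 : (∑ q ∈ Y, ra 7 (q : ℤ) = 0 ↔ jacobiSym d2 7 = 1) := by
    rw [sum_ra hF Y (fun q => (q : ℤ)), hYd, ch_odd (by norm_num)]
    intro q hq
    rw [gd_odd (by norm_num)]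
    intro h8
    exact hne q (hY hq) ((Nat.prime_dvd_prime_iff_eq hF (D.pr q (hY hq))).1
      (by exact_mod_cast h8)).symm
  rw [e1]
  have h01 : ∀ a : ZMod 2, a ≠ 0 → a = 1 := by decide
  rcases (L.supp7 hm7).2 with ⟨h8, h9⟩ | ⟨h8, h9⟩
  · left
    exact ⟨e2.2 (jac7.1 h8), h9⟩
  · right
    refine ⟨h01 _ fun h10 => ?_, h9⟩
    have h11 := e2.1 h10
    rw [jac7.2 h8] at h11
    exact absurd h11 (by decide)

/-- the labels are the local symbols of `-7` -/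
theorem label (h : Ty t r s S m) {p : ℕ} [Fact p.Prime] (hp : p ∈ Vt t S) (hp2 : p ≠ 2)
    {M : ℤ → ZMod 2} (h3 : ∀ a, ¬ (p : ℤ) ∣ a → M a = ra p a)
    (h4 : M (pdr r s p) = ∑ q ∈ (Vt t S).erase p, ra p (pdr r s q)) :
    M (-7) = eS t r s S p := by
  have D := dat_of_ty h
  have hF : Nat.Prime 7 := by norm_num
  have e7 : sgp 7 = -7 := by
    unfold sgp
    norm_num
  by_cases hp7 : p = 7
  · subst hp7
    have e8 : pdr r s 7 = -7 := by rw [D.odd 7 hp2, e7]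
    rw [e8] at h4
    rw [h4]
    unfold eS
    rw [if_pos rfl]
    refine Finset.sum_congr rfl fun q hq => ?_
    rw [sy_ra h (Finset.mem_of_mem_erase hq) hp (Finset.ne_of_mem_erase hq)]
  · rw [eS_ne hp7, nr_recip (D.pr p hp) hF (by norm_num) hp7, e7]
    refine h3 _ fun h8 => hp7 ?_
    rw [dvd_neg] at h8
    exact (Nat.prime_dvd_prime_iff_eq (D.pr p hp) hF).1 (by exact_mod_cast h8)

/-- the value of the first coordinate at the odd primes -/
theorem val_d1 (h : Ty t r s S m) (L : LocD m d1 d2) {Y : Finset ℕ}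
    (hYp : ∀ p : ℕ, p.Prime → (p ∈ Y ↔ (p : ℤ) ∣ d2)) {p : ℕ} [Fact p.Prime] (hp : p ∈ Vt t S)
    (hp2 : p ≠ 2) {M : ℤ → ZMod 2} (h1 : ∀ a b, a ≠ 0 → b ≠ 0 → M (a * b) = M a + M b)
    (h2 : ∀ a, a ≠ 0 → (M a = 0 ↔ IsSquare (a : ℚ_[p]) ∨ IsSquare ((a : ℚ_[p]) * m))) :
    M d1 = M (-7) * ind Y p := by
  have D := dat_of_ty h
  have hpp := D.pr p hp
  have hd10 := L.s1.ne_zero
  have hd20 := L.s2.ne_zero
  have hpm := D.dvd hp hp2
  have c0 : IsSquare (d2 : ℚ_[p]) → p ∉ Y := by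
    intro h5 h6
    exact not_sq (p := p) L.s2 ((hYp p hpp).1 h6) h5
  have c1 : IsSquare ((d2 : ℚ_[p]) * (-m)) → p ∈ Y := by
    intro h5
    rw [hYp p hpp]
    by_contra h6
    have hd2' : (d2 : ℚ_[p]) ≠ 0 := by exact_mod_cast hd20
    have hm' : ((-m : ℤ) : ℚ_[p]) ≠ 0 := by exact_mod_cast (neg_ne_zero.2 D.sqf.ne_zero)
    have hsm : Squarefree (-m) := fun x hx => D.sqf x (by rwa [dvd_neg] at hx)
    have h5' : IsSquare ((d2 : ℚ_[p]) * ((-m : ℤ) : ℚ_[p])) := by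
      push_cast
      exact h5
    have h7 := even_val (mul_ne_zero hd2' hm') h5'
    rw [Padic.valuation_mul hd2' hm', val_zero (p := p) h6,
      val_one (p := p) ((dvd_neg).2 hpm) hsm] at h7
    exact absurd h7 (by decide)
  have h7ne : (-7 : ℤ) ≠ 0 := by norm_num
  have key : ∀ a b : ZMod 2, a + b = 0 → a = b * 1 := by decide
  rcases L.dv p hp2 hpm with h5 | h5 | h5 | h5
  · rw [ind_zero (c0 h5.2), mul_zero, h2 d1 hd10]
    exact Or.inl h5.1
  · rw [ind_one (c1 h5.2)]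
    refine key _ _ ?_
    rw [← h1 _ _ hd10 h7ne, h2 _ (mul_ne_zero hd10 h7ne)]
    left
    push_cast
    exact h5.1
  · rw [ind_zero (c0 h5.2), mul_zero, h2 d1 hd10]
    exact Or.inr h5.1
  · rw [ind_one (c1 h5.2)]
    refine key _ _ ?_
    rw [← h1 _ _ hd10 h7ne, h2 _ (mul_ne_zero hd10 h7ne)]
    right
    push_cast
    rw [mul_assoc]
    exact h5.1

end

theorem one_one : (1 : ZMod 2) + 1 = 0 := by decide

theorem t_NEC : S_NEC := by
  rintro t r s S m h ⟨d1, d2⟩ hz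
  have L := locD h.cl hz
  have D := dat_of_ty h
  obtain ⟨Y, hY, hYd, hYp⟩ := exists_Y D L
  set j : ZMod 2 := ∑ q ∈ Vt t S, eS t r s S q * ind Y q with hj
  have hd10 := L.s1.ne_zero
  have hp7 : Prime (7 : ℤ) := by norm_num
  have hF : Nat.Prime 7 := by norm_num
  -- the reduced first coordinate
  obtain ⟨e, se, hej, hsup, he4, he2⟩ : ∃ e : ℤ, Squarefree e ∧
      ((j = 0 ∧ d1 = e) ∨ (j = 1 ∧ d1 = -7 * e)) ∧
      (∀ p : ℕ, p.Prime → (p : ℤ) ∣ e → p ∈ Vt t S) ∧ (2 ∉ Vt t S → e % 4 = 1) ∧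
      (2 ∈ Vt t S → IsSquare (e : ℚ_[2]) ∨ IsSquare ((e : ℚ_[2]) * m)) := by
    have hc : (j = 0 ∧ (7 ∈ Vt t S ∨ ¬ (7 : ℤ) ∣ d1)) ∨ (j = 1 ∧ (7 : ℤ) ∣ d1) := by
      by_cases h7 : 7 ∈ Vt t S
      · left
        exact ⟨j_mem h L hY hYd h7, Or.inl h7⟩
      · rcases j_not_mem h L hY hYd h7 with h8 | h8
        · left
          exact ⟨h8.1, Or.inr h8.2⟩
        · right
          exact h8
    rcases hc with ⟨h8, h9⟩ | ⟨h8, h9⟩
    · refine ⟨d1, L.s1, Or.inl ⟨h8, rfl⟩, fun p hp hpd => ?_, fun h2 => L.odd2 (D.m4 h2),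
        fun h2 => L.at2 ((D.ram 2 Nat.prime_two).2 h2)⟩
      by_cases h7 : p = 7
      · subst h7
        rcases h9 with h9 | h9
        · exact h9
        · exact absurd (by exact_mod_cast hpd) h9
      · exact (D.ram p hp).1 ((L.supp p hp h7).1 hpd)
    · obtain ⟨k, hk⟩ := h9
      have hd1e : d1 = -7 * (-k) := by rw [hk]; ring
      have sk : Squarefree (-k) := by
        intro x hx
        exact L.s1 x (by rw [hd1e]; exact hx.mul_left _)
      have h7k : ¬ (7 : ℤ) ∣ -k := by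
        rintro ⟨i, hi⟩
        have h1 := L.s1 7 ⟨-i, by rw [hd1e, hi]; ring⟩
        rw [Int.isUnit_iff] at h1
        omega
      refine ⟨-k, sk, Or.inr ⟨h8, hd1e⟩, fun p hp hpd => ?_, fun h2 => ?_, fun h2 => ?_⟩
      · by_cases h7 : p = 7
        · subst h7
          exact absurd (by exact_mod_cast hpd) h7k
        · exact (D.ram p hp).1 ((L.supp p hp h7).1 (by rw [hd1e]; exact hpd.mul_left _))
      · have := L.odd2 (D.m4 h2)
        omega
      · have h7' : ((-7 : ℤ) : ℚ_[2]) ≠ 0 := by norm_num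
        rcases L.at2 ((D.ram 2 Nat.prime_two).2 h2) with h5 | h5
        · left
          have e1 : (d1 : ℚ_[2]) = ((-7 : ℤ) : ℚ_[2]) * ((-k : ℤ) : ℚ_[2]) := by
            rw [hd1e]
            push_cast
            ring
          rw [e1] at h5
          exact sq_cancel h7' sq_neg7 h5
        · right
          have e1 : (d1 : ℚ_[2]) * m = ((-7 : ℤ) : ℚ_[2]) * (((-k : ℤ) : ℚ_[2]) * m) := by
            rw [hd1e]
            push_cast
            ring
          rw [e1] at h5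
          exact sq_cancel h7' sq_neg7 h5
  obtain ⟨X, hX, hXe, hX0, hX1⟩ := D.decomp se hsup he4 he2
  have he0 := se.ne_zero
  have h7ne : (-7 : ℤ) ≠ 0 := by norm_num
  have hjS : ∑ q, ES t r s S q * ind Y q.1 = j :=
    Finset.sum_coe_sort (Vt t S) (fun q => eS t r s S q * ind Y q)
  refine ⟨fun p => ind X p.1, fun p => ind Y p.1, (isLk_iff (ind Y)).2 (lk_all h L hY hYd),
    (rw_iff (ind X) (ind Y)).2 fun p hp => ?_, ?_⟩
  · have hpp := D.pr p hp
    have : Fact p.Prime := ⟨hpp⟩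
    have hsum : ∑ q ∈ (Vt t S).erase p, (ind X q + ind X p) * sy r s p q =
        ∑ q ∈ (Vt t S).erase p, (ind X q + ind X p) * ra p (pdr r s q) :=
      Finset.sum_congr rfl fun q hq => by
        rw [sy_ra h (Finset.mem_of_mem_erase hq) hp (Finset.ne_of_mem_erase hq)]
    rw [hsum, ← hj]
    by_cases hp2 : p = 2
    · subst hp2
      rw [eS_ne (by norm_num), nr72, zero_mul, zero_mul, add_zero]
      have hgd : ∀ q ∈ (Vt t S).erase 2, Gd 2 (pdr r s q) := by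
        intro q hq
        rw [gd_two, D.odd q (Finset.ne_of_mem_erase hq)]
        exact sgp_mod (D.pr q (Finset.mem_of_mem_erase hq)) (Finset.ne_of_mem_erase hq)
      by_cases h2X : 2 ∈ X
      · -- the complement
        have h5 := hX1 h2X
        have hsub : Vt t S \ X ⊆ (Vt t S).erase 2 := by
          intro q hq
          obtain ⟨h6, h7⟩ := Finset.mem_sdiff.1 hq
          exact Finset.mem_erase.2 ⟨fun h8 => h7 (h8 ▸ h2X), h6⟩
        have h6 : ∑ q ∈ (Vt t S).erase 2, (ind X q + ind X 2) * ra 2 (pdr r s q) =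
            ∑ q ∈ Vt t S \ X, ra 2 (pdr r s q) := by
          rw [sum_ind hsub]
          refine Finset.sum_congr rfl fun q hq => ?_
          congr 1
          rw [ind_one h2X]
          by_cases hqX : q ∈ X
          · rw [ind_one hqX, ind_zero (fun h => (Finset.mem_sdiff.1 h).2 hqX)]
            exact one_one
          · rw [ind_zero hqX, ind_one (Finset.mem_sdiff.2 ⟨Finset.mem_of_mem_erase hq, hqX⟩)]
            exact zero_add 1
        have hg2 : ∀ q ∈ Vt t S \ X, Gd 2 (pdr r s q) := fun q hq => hgd q (hsub hq)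
        rw [h6, sum_ra Nat.prime_two _ _ hg2, ch_iff (gd_prod Nat.prime_two _ _ hg2)]
        have he0' : (e : ℚ_[2]) ≠ 0 := by exact_mod_cast he0
        have h7 : (e : ℚ_[2]) * m =
            (e * e) * ((∏ q ∈ Vt t S \ X, pdr r s q : ℤ) : ℚ_[2]) := by
          have h8 : m = (∏ q ∈ Vt t S \ X, pdr r s q) * e := by
            rw [← hXe, Finset.prod_sdiff hX, D.prod]
          have h9 : (m : ℚ_[2]) = ((∏ q ∈ Vt t S \ X, pdr r s q : ℤ) : ℚ_[2]) * e := by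
            rw [← Int.cast_mul, ← h8]
          rw [h9]
          ring
        rw [h7] at h5
        exact sq_cancel (mul_ne_zero he0' he0') (IsSquare.mul_self _) h5
      · have h5 := hX0 hp h2X
        have hsub : X ⊆ (Vt t S).erase 2 := fun q hq =>
          Finset.mem_erase.2 ⟨fun h8 => h2X (h8 ▸ hq), hX hq⟩
        have h6 : ∑ q ∈ (Vt t S).erase 2, (ind X q + ind X 2) * ra 2 (pdr r s q) =
            ∑ q ∈ X, ra 2 (pdr r s q) := by
          rw [sum_ind hsub]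
          refine Finset.sum_congr rfl fun q hq => ?_
          rw [ind_zero h2X, add_zero]
        have hg2 : ∀ q ∈ X, Gd 2 (pdr r s q) := fun q hq => hgd q (hsub hq)
        rw [h6, sum_ra Nat.prime_two _ _ hg2, ch_iff (gd_prod Nat.prime_two _ _ hg2), hXe]
        exact h5
    · obtain ⟨M, h1, h2, h3, h4, h5⟩ := D.plus hp hp2
      rw [← h5 X hX, hXe]
      have hlab := label h hp hp2 h3 h4
      have hv := val_d1 h L hYp hp hp2 h1 h2
      rw [hlab] at hv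
      rw [← hv]
      rcases hej with ⟨h6, h7⟩ | ⟨h6, h7⟩
      · rw [h6, mul_zero, add_zero, h7]
      · rw [h6, mul_one, h7, h1 _ _ h7ne he0, hlab]
        have : ∀ a b : ZMod 2, b = a + b + a := by decide
        exact this _ _
  · have e1 : dX t r s S (fun p => ind X p.1) (∑ q, ES t r s S q * ind Y q.1) = d1 := by
      rw [hjS]
      unfold dX
      rw [prod_ind hX (fun p => pdr r s p), hXe]
      rcases hej with ⟨h6, h7⟩ | ⟨h6, h7⟩
      · rw [h6, if_neg (by decide), mul_one, h7]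
      · rw [h6, if_pos rfl, h7, mul_comm]
    have e2 : dY t S (fun p => ind Y p.1) = d2 := by
      unfold dY
      rw [prod_ind hY (fun p => (p : ℤ)), hYd]
    rw [e1, e2]

end Pool.Agent.N488.SLX
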