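import Pool.Agent.N637.P21.Sel
import Pool.Agent.N875.X15.Lin

/-!
# Characters at the primes (library of `Pool.Agent.N875.X15`, files `Trans`, `Crit`, `Conv`, `RcNc`,
by the authors of that project, restated here to keep the list of imports short)
-/

set_option autoImplicit false

namespace Pool.Agent.N488.SLX

open Pool.Agent.N875.X15

section

variable {p : ℕ} [hp : Fact p.Prime]

/-- squares in `ℚ_[p]` from squares modulo `p` -/
lemma sq_of_zmod (hp2 : p ≠ 2) {n : ℤ} (hn : ¬ (p : ℤ) ∣ n) (h : IsSquare ((n : ℤ) : ZMod p)) :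
    IsSquare (n : ℚ_[p]) := by
  obtain ⟨t, ht⟩ := h
  have ht0 : t ≠ 0 := by
    rintro rfl
    rw [mul_zero] at ht
    exact hn ((ZMod.intCast_zmod_eq_zero_iff_dvd n p).1 ht)
  set s : ℤ := (t.val : ℤ) with hs
  have hst : ((s : ℤ) : ZMod p) = t := by
    rw [hs]
    simp
  have hns : ¬ (p : ℤ) ∣ s := by
    intro h1
    apply ht0
    rw [← hst]
    exact (ZMod.intCast_zmod_eq_zero_iff_dvd s p).2 h1
  have hdv : (p : ℤ) ∣ n - s * s := by
    apply (ZMod.intCast_zmod_eq_zero_iff_dvd (n - s * s) p).1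
    push_cast at ht hst ⊢
    rw [ht, hst, sub_self]
  have hs0 : ((s * s : ℤ) : ℚ_[p]) ≠ 0 := by
    have h1 : s ≠ 0 := by rintro h1; rw [h1] at hns; exact hns (dvd_zero _)
    exact_mod_cast mul_ne_zero h1 h1
  have h1 : ‖((n : ℤ) : ℚ_[p]) - ((s * s : ℤ) : ℚ_[p])‖ < ‖((s * s : ℤ) : ℚ_[p])‖ := by
    have e1 : ‖((s * s : ℤ) : ℚ_[p])‖ = 1 := by
      refine le_antisymm (Padic.norm_int_le_one _) ?_
      rw [← not_lt, Padic.norm_intCast_lt_one_iff]
      intro h2
      rcases (Nat.prime_iff_prime_int.1 hp.out).dvd_or_dvd h2 with h3 | h3 <;> exact hns h3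
    rw [e1, ← Int.cast_sub, Padic.norm_intCast_lt_one_iff]
    exact hdv
  have h2 := (close hp2 hs0 h1).1
  rw [mul_comm] at h2
  refine sq_cancel hs0 ⟨(s : ℚ_[p]), by push_cast; ring⟩ h2

lemma zmod_of_sq {n : ℤ} (h : IsSquare (n : ℚ_[p])) : IsSquare ((n : ℤ) : ZMod p) := by
  obtain ⟨r, hr⟩ := h
  have h1 : ‖r‖ ≤ 1 := by
    by_contra hcon
    push Not at hcon
    have h2 : ‖(n : ℚ_[p])‖ ≤ 1 := Padic.norm_int_le_one n
    rw [hr, norm_mul] at h2
    nlinarith
  obtain ⟨v, hv⟩ : ∃ v : ℤ_[p], (v : ℚ_[p]) = r := ⟨⟨r, h1⟩, rfl⟩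
  have h2 : ((n : ℤ) : ℤ_[p]) = v * v := by
    apply Subtype.ext
    rw [PadicInt.coe_mul, hv]
    push_cast
    exact hr
  have h3 := congrArg (PadicInt.toZMod (p := p)) h2
  rw [map_mul, map_intCast] at h3
  exact ⟨_, h3⟩

lemma jac_of_sq {n : ℤ} (hn : ¬ (p : ℤ) ∣ n) (h : IsSquare (n : ℚ_[p])) : jacobiSym n p = 1 := by
  rw [← jacobiSym.legendreSym.to_jacobiSym]
  rw [legendreSym.eq_one_iff p (fun h0 => hn ((ZMod.intCast_zmod_eq_zero_iff_dvd n p).1 h0))]
  exact zmod_of_sq h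

/-- a squarefree number divisible by `p` is not a square -/
lemma not_sq {d : ℤ} (hd : Squarefree d) (hpd : (p : ℤ) ∣ d) : ¬ IsSquare (d : ℚ_[p]) := by
  intro hsq
  have h1 : IsSquare ((1 : ℚ_[p]) * d) := by rwa [one_mul]
  exact not_dvd_of_even one_ne_zero (by rw [Padic.valuation_one]; exact Even.zero) hd h1 hpd

end

/-- reciprocity for numbers `≡ 1 mod 4` -/
lemma recip {d : ℤ} (hd : d % 4 = 1) {p : ℕ} (hp : Odd p) : jacobiSym d p = jacobiSym p d.natAbs := by
  rcases le_or_gt 0 d with h | h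
  · have h1 : (d.natAbs : ℤ) = d := Int.natAbs_of_nonneg h
    rw [← h1, Int.natAbs_natCast]
    exact jacobiSym.quadratic_reciprocity_one_mod_four (by omega) hp
  · have h1 : (d.natAbs : ℤ) = -d := by
      rw [Int.natCast_natAbs, abs_of_neg h]
    have h3 : d = -1 * (d.natAbs : ℤ) := by rw [h1]; ring
    have h4 : d.natAbs % 4 = 3 := by omega
    conv_lhs => rw [h3]
    rw [jacobiSym.mul_left, jacobiSym.at_neg_one hp]
    have h5 : p % 4 = 1 ∨ p % 4 = 3 := by
      have := Nat.odd_iff.1 hp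
      omega
    rcases h5 with h5 | h5
    · rw [ZMod.χ₄_nat_one_mod_four h5, one_mul]
      exact (jacobiSym.quadratic_reciprocity_one_mod_four h5 (Nat.odd_iff.2 (by omega))).symm
    · rw [ZMod.χ₄_nat_three_mod_four h5,
        jacobiSym.quadratic_reciprocity_three_mod_four h4 h5]
      ring


/-! ### the characters -/

/-- the quadratic character at `q` of the numbers prime to `q` (which are `1 mod 4` if `q = 2`) -/
def ch (q : ℕ) (a : ℤ) : ℤ := if q = 2 then (if a % 8 = 1 then 1 else -1) else jacobiSym a q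

/-- the domain of the character -/
def Gd (q : ℕ) (a : ℤ) : Prop := if q = 2 then a % 4 = 1 else ¬ (q : ℤ) ∣ a

lemma ch_two (a : ℤ) : ch 2 a = if a % 8 = 1 then 1 else -1 := by
  unfold ch
  rw [if_pos rfl]

lemma ch_odd {q : ℕ} (hq : q ≠ 2) (a : ℤ) : ch q a = jacobiSym a q := by
  unfold ch
  rw [if_neg hq]

lemma gd_two (a : ℤ) : Gd 2 a ↔ a % 4 = 1 := by
  unfold Gd
  rw [if_pos rfl]

lemma gd_odd {q : ℕ} (hq : q ≠ 2) (a : ℤ) : Gd q a ↔ ¬ (q : ℤ) ∣ a := by
  unfold Gd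
  rw [if_neg hq]

lemma ch_mul {q : ℕ} {a b : ℤ} (ha : Gd q a) (hb : Gd q b) : ch q (a * b) = ch q a * ch q b := by
  by_cases h : q = 2
  · subst h
    rw [gd_two] at ha hb
    rw [ch_two, ch_two, ch_two]
    have e1 : a % 8 = 1 ∨ a % 8 = 5 := by omega
    have e2 : b % 8 = 1 ∨ b % 8 = 5 := by omega
    have e3 := Int.mul_emod a b 8
    rcases e1 with e1 | e1 <;> rcases e2 with e2 | e2 <;> rw [e1, e2] at e3 <;> rw [e3, e1, e2] <;>
      norm_num
  · rw [ch_odd h, ch_odd h, ch_odd h]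
    exact jacobiSym.mul_left _ _ _

lemma gd_one {q : ℕ} (hq : q.Prime) : Gd q 1 := by
  by_cases h : q = 2
  · subst h
    rw [gd_two]
    norm_num
  · rw [gd_odd h]
    intro h1
    have h2 : q ∣ 1 := by exact_mod_cast h1
    exact hq.one_lt.ne' (Nat.dvd_one.1 h2)

lemma gd_mul {q : ℕ} (hq : q.Prime) {a b : ℤ} (ha : Gd q a) (hb : Gd q b) : Gd q (a * b) := by
  by_cases h : q = 2
  · subst h
    rw [gd_two] at ha hb ⊢
    rw [Int.mul_emod, ha, hb]
    norm_num
  · rw [gd_odd h] at ha hb ⊢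
    intro hab
    rcases (Nat.prime_iff_prime_int.1 hq).dvd_or_dvd hab with h1 | h1
    · exact ha h1
    · exact hb h1

lemma ch_pm {q : ℕ} (hq : q.Prime) {a : ℤ} (ha : Gd q a) : ch q a = 1 ∨ ch q a = -1 := by
  by_cases h : q = 2
  · subst h
    rw [ch_two]
    split_ifs
    · exact Or.inl rfl
    · exact Or.inr rfl
  · rw [gd_odd h] at ha
    rw [ch_odd h]
    refine jacobiSym.eq_one_or_neg_one ?_
    rw [← Int.isCoprime_iff_gcd_eq_one]
    exact ((Nat.prime_iff_prime_int.1 hq).coprime_iff_not_dvd.2 ha).symm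

/-- integers congruent to `1` modulo `8` -/
lemma sq_int {a : ℤ} (h : a % 8 = 1) : IsSquare (a : ℚ_[2]) := by
  have h1 := sq_of_mod8 (a : ℤ_[2]) (by
    rw [map_intCast]
    have e : a = 8 * (a / 8) + 1 := by omega
    rw [e]
    push_cast
    have : (8 : ZMod (2 ^ 3)) = 0 := by decide
    rw [this]
    ring)
  simpa using h1

lemma ch_iff {q : ℕ} [hq : Fact q.Prime] {a : ℤ} (ha : Gd q a) : ch q a = 1 ↔ IsSquare (a : ℚ_[q]) := by
  by_cases h : q = 2
  · subst h
    rw [gd_two] at ha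
    rw [ch_two]
    constructor
    · intro h1
      split_ifs at h1 with h2
      exact sq_int h2
    · intro h1
      rw [if_pos (Pool.Agent.Y667.RP.mod_of_sq (by omega) h1)]
  · rw [gd_odd h] at ha
    rw [ch_odd h]
    constructor
    · intro h1
      refine sq_of_zmod h ha ?_
      rw [← jacobiSym.legendreSym.to_jacobiSym] at h1
      exact (legendreSym.eq_one_iff q (fun h0 => ha ((ZMod.intCast_zmod_eq_zero_iff_dvd a q).1 h0))).1 h1
    · exact jac_of_sq ha

lemma gd_prod {ι : Type} {q : ℕ} (hq : q.Prime) (s : Finset ι) (f : ι → ℤ)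
    (h : ∀ p ∈ s, Gd q (f p)) : Gd q (∏ p ∈ s, f p) := by
  classical
  induction s using Finset.induction_on with
  | empty => rw [Finset.prod_empty]; exact gd_one hq
  | insert a s ha ih =>
    rw [Finset.prod_insert ha]
    exact gd_mul hq (h a (Finset.mem_insert_self _ _))
      (ih fun p hp => h p (Finset.mem_insert_of_mem hp))

/-- the additive form of the character -/
def ra (q : ℕ) (a : ℤ) : ZMod 2 := if ch q a = 1 then 0 else 1

lemma sg_ra {q : ℕ} (hq : q.Prime) {a : ℤ} (ha : Gd q a) : sg (ra q a) = ch q a := by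
  unfold ra
  rcases ch_pm hq ha with h | h
  · rw [if_pos h, h]
    rfl
  · rw [h, if_neg (by decide)]
    rfl

lemma sg_sum_ra {ι : Type} {q : ℕ} (hq : q.Prime) (s : Finset ι) (f : ι → ℤ)
    (h : ∀ p ∈ s, Gd q (f p)) : sg (∑ p ∈ s, ra q (f p)) = ch q (∏ p ∈ s, f p) := by
  classical
  induction s using Finset.induction_on with
  | empty =>
    rw [Finset.sum_empty, Finset.prod_empty]
    by_cases h2 : q = 2
    · subst h2
      rw [ch_two]
      rfl
    · rw [ch_odd h2, jacobiSym.one_left]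
      rfl
  | insert a s ha ih =>
    rw [Finset.sum_insert ha, Finset.prod_insert ha, sg_add, sg_ra hq (h a (Finset.mem_insert_self _ _)),
      ih fun p hp => h p (Finset.mem_insert_of_mem hp), ch_mul (h a (Finset.mem_insert_self _ _))
        (gd_prod hq s f fun p hp => h p (Finset.mem_insert_of_mem hp))]

lemma sum_ra {ι : Type} {q : ℕ} (hq : q.Prime) (s : Finset ι) (f : ι → ℤ)
    (h : ∀ p ∈ s, Gd q (f p)) : ∑ p ∈ s, ra q (f p) = 0 ↔ ch q (∏ p ∈ s, f p) = 1 := by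
  rw [← sg_inj, sg_sum_ra hq s f h]

/-! ### reciprocity -/

/-- the prime discriminants -/
def sgp (p : ℕ) : ℤ := if p % 4 = 1 then p else -p

lemma sgp_mod {p : ℕ} (hp : p.Prime) (h2 : p ≠ 2) : sgp p % 4 = 1 := by
  unfold sgp
  have := hp.eq_two_or_odd
  split_ifs <;> omega

lemma sgp_abs (p : ℕ) : (sgp p).natAbs = p := by
  unfold sgp
  split_ifs
  · exact Int.natAbs_natCast p
  · rw [Int.natAbs_neg, Int.natAbs_natCast]

lemma dvd_sgp {p q : ℕ} : (q : ℤ) ∣ sgp p ↔ q ∣ p := by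
  rw [Int.natCast_dvd, sgp_abs]

/-- **reciprocity** -/
theorem recip_ch {p q : ℕ} (hp : p.Prime) (hq : q.Prime) (hq2 : q ≠ 2) :
    ch p (sgp q) = jacobiSym p q := by
  have hqo : q % 2 = 1 := hq.eq_two_or_odd.resolve_left hq2
  by_cases h : p = 2
  · subst h
    rw [ch_two]
    have e : jacobiSym ((2 : ℕ) : ℤ) q = if q % 8 = 1 ∨ q % 8 = 7 then 1 else -1 := by
      have e1 : jacobiSym ((2 : ℕ) : ℤ) q = jacobiSym 2 q := by norm_num
      have e2 : ¬ q % 2 = 0 := by omega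
      rw [e1, jacobiSym.at_two (Nat.odd_iff.2 hqo), ZMod.χ₈_nat_eq_if_mod_eight, if_neg e2]
    rw [e]
    unfold sgp
    split_ifs <;> first | rfl | omega
  · rw [ch_odd h, recip (sgp_mod hq hq2) (hp.odd_of_ne_two h), sgp_abs]


/-- the odd part with the sign such that it is `1 mod 4` -/
def oe (d : ℤ) : ℤ := ∏ p ∈ d.natAbs.primeFactors.erase 2, sgp p

lemma odd_pf {d : ℤ} {p : ℕ} (h : p ∈ d.natAbs.primeFactors.erase 2) :
    p.Prime ∧ p ≠ 2 ∧ (p : ℤ) ∣ d := by
  obtain ⟨h1, h2⟩ := Finset.mem_erase.1 h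
  obtain ⟨h3, h4, -⟩ := Nat.mem_primeFactors.1 h2
  exact ⟨h3, h1, Int.natCast_dvd.2 h4⟩

lemma oe_mod (d : ℤ) : oe d % 4 = 1 := by
  rw [← gd_two]
  refine gd_prod Nat.prime_two _ _ fun p hp => ?_
  rw [gd_two]
  exact sgp_mod (odd_pf hp).1 (odd_pf hp).2.1

lemma prod_abs (s : Finset ℕ) : (∏ p ∈ s, sgp p).natAbs = ∏ p ∈ s, p := by
  classical
  induction s using Finset.induction_on with
  | empty => rfl
  | insert a s ha ih => rw [Finset.prod_insert ha, Finset.prod_insert ha, Int.natAbs_mul, ih, sgp_abs]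

/-- the decomposition -/
theorem oe_cases {d : ℤ} (hd : Squarefree d) :
    (¬ (2 : ℤ) ∣ d ∧ (d = oe d ∨ d = -oe d)) ∨ ((2 : ℤ) ∣ d ∧ (d = 2 * oe d ∨ d = -2 * oe d)) := by
  have h1 : ∏ p ∈ d.natAbs.primeFactors, p = d.natAbs :=
    Nat.prod_primeFactors_of_squarefree (Int.squarefree_natAbs.2 hd)
  have hab : (oe d).natAbs = ∏ p ∈ d.natAbs.primeFactors.erase 2, p := prod_abs _
  by_cases h2 : (2 : ℤ) ∣ d
  · right
    refine ⟨h2, ?_⟩
    have h3 : 2 ∈ d.natAbs.primeFactors := Nat.mem_primeFactors.2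
      ⟨Nat.prime_two, by
        have h4 : ((2 : ℕ) : ℤ) ∣ d := h2
        exact Int.natCast_dvd.1 h4, Int.natAbs_ne_zero.2 hd.ne_zero⟩
    rw [← Finset.mul_prod_erase _ _ h3, ← hab] at h1
    omega
  · left
    refine ⟨h2, ?_⟩
    have h3 : 2 ∉ d.natAbs.primeFactors := by
      intro h4
      apply h2
      have h5 := (Nat.mem_primeFactors.1 h4).2.1
      have h6 : ((2 : ℕ) : ℤ) ∣ d := Int.natCast_dvd.2 h5
      exact h6
    rw [← Finset.erase_eq_of_notMem h3, ← hab] at h1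
    omega


end Pool.Agent.N488.SLX
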