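import Pool.Agent.N488.SLX.Ch

/-!
# The quotient of `ℚ_q^*` by the squares and a uniformiser
-/

set_option autoImplicit false

namespace Pool.Agent.N488.SLX

open Pool.Agent.N875.X15

section

variable {q : ℕ} [hq : Fact q.Prime]

lemma ra_zero {a : ℤ} (hq2 : q ≠ 2) (ha : ¬ (q : ℤ) ∣ a) : ra q a = 0 ↔ IsSquare (a : ℚ_[q]) := by
  have hg : Gd q a := (gd_odd hq2 a).2 ha
  rw [← ch_iff hg]
  unfold ra
  split_ifs with h
  · simp [h]
  · simp [h]

lemma ra_mul {a b : ℤ} (ha : Gd q a) (hb : Gd q b) : ra q (a * b) = ra q a + ra q b := by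
  have h := hq.out
  unfold ra
  rw [ch_mul ha hb]
  rcases ch_pm h ha with h1 | h1 <;> rcases ch_pm h hb with h2 | h2 <;> rw [h1, h2] <;> decide

/-- the power of `q` -/
lemma exists_pow {a : ℤ} (ha : a ≠ 0) : ∃ (k : ℕ) (u : ℤ), ¬ (q : ℤ) ∣ u ∧ a = (q : ℤ) ^ k * u := by
  have hp : (q : ℤ) ≠ 0 := by exact_mod_cast hq.out.ne_zero
  have hfin : FiniteMultiplicity (q : ℤ) a := by
    refine Int.finiteMultiplicity_iff.2 ⟨?_, ha⟩
    rw [Int.natAbs_natCast]
    exact hq.out.one_lt.ne'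
  obtain ⟨u, h1, h2⟩ := hfin.exists_eq_pow_mul_and_not_dvd
  exact ⟨_, u, h2, h1⟩

lemma val_pow (k : ℕ) {u : ℤ} (hu : ¬ (q : ℤ) ∣ u) :
    (((q : ℤ) ^ k * u : ℤ) : ℚ_[q]).valuation = k := by
  have hu0 : (u : ℚ_[q]) ≠ 0 := by
    have : u ≠ 0 := by rintro rfl; simp at hu
    exact_mod_cast this
  have hq0 : ((q : ℤ) : ℚ_[q]) ≠ 0 := by exact_mod_cast hq.out.ne_zero
  push_cast at hq0 ⊢
  rw [Padic.valuation_mul (pow_ne_zero _ hq0) hu0, Padic.valuation_pow, val_p, val_zero hu]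
  ring

/-- the general existence statement -/
theorem exists_L (hq2 : q ≠ 2) {μ : ℤ} (hμ : Squarefree μ) (hqμ : (q : ℤ) ∣ μ) :
    ∃ L : ℤ → ZMod 2, (∀ a b, a ≠ 0 → b ≠ 0 → L (a * b) = L a + L b) ∧
      (∀ a, a ≠ 0 → (L a = 0 ↔ IsSquare (a : ℚ_[q]) ∨ IsSquare ((a : ℚ_[q]) * μ))) ∧
      ∀ a, ¬ (q : ℤ) ∣ a → L a = ra q a := by
  classical
  have hqp := hq.out
  have hpr : Prime (q : ℤ) := Nat.prime_iff_prime_int.1 hqp
  have hq0 : ((q : ℕ) : ℚ_[q]) ≠ 0 := by exact_mod_cast hqp.ne_zero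
  obtain ⟨ν, hν⟩ := hqμ
  have hqν : ¬ (q : ℤ) ∣ ν := by
    rintro ⟨j, hj⟩
    have h1 : (q : ℤ) * q ∣ μ := ⟨j, by rw [hν, hj]; ring⟩
    have h2 := hμ _ h1
    rw [Int.isUnit_iff] at h2
    have := hqp.one_lt
    omega
  have hν0 : (ν : ℚ_[q]) ≠ 0 := by
    have : ν ≠ 0 := by rintro rfl; simp at hqν
    exact_mod_cast this
  let L : ℤ → ZMod 2 := fun a => if IsSquare (a : ℚ_[q]) ∨ IsSquare ((a : ℚ_[q]) * μ) then 0 else 1
  have hL : ∀ a, (L a = 0 ↔ IsSquare (a : ℚ_[q]) ∨ IsSquare ((a : ℚ_[q]) * μ)) := by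
    intro a
    by_cases h : IsSquare (a : ℚ_[q]) ∨ IsSquare ((a : ℚ_[q]) * μ)
    · simp only [L, if_pos h, h, true_iff]
    · simp only [L, if_neg h, h, iff_false]
      decide
  have h01 : ∀ a b : ZMod 2, (a = 0 ↔ b = 0) → a = b := by decide
  -- the values
  have key : ∀ (k : ℕ) (u : ℤ), ¬ (q : ℤ) ∣ u → L ((q : ℤ) ^ k * u) = ra q u + k * ra q ν := by
    intro k u hu
    have hu0 : (u : ℚ_[q]) ≠ 0 := by
      have : u ≠ 0 := by rintro rfl; simp at hu
      exact_mod_cast this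
    have hv := val_pow (q := q) k hu
    have ha0 : (((q : ℤ) ^ k * u : ℤ) : ℚ_[q]) ≠ 0 := by
      push_cast
      exact mul_ne_zero (pow_ne_zero _ hq0) hu0
    have hμv : (μ : ℚ_[q]).valuation = 1 := by
      have := val_pow (q := q) 1 hqν
      rw [pow_one, ← hν] at this
      exact_mod_cast this
    have hμ0 : (μ : ℚ_[q]) ≠ 0 := by exact_mod_cast hμ.ne_zero
    apply h01
    rw [hL]
    rcases Nat.even_or_odd' k with ⟨n, hn | hn⟩
    · -- even
      have e1 : ((k : ℕ) : ZMod 2) = 0 := by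
        rw [hn]; push_cast; rw [show (2 : ZMod 2) = 0 by decide, zero_mul]
      rw [e1, zero_mul, add_zero, ra_zero hq2 hu]
      constructor
      · rintro (h | h)
        · have e2 : (((q : ℤ) ^ k * u : ℤ) : ℚ_[q]) = ((q : ℚ_[q]) ^ n * (q : ℚ_[q]) ^ n) * u := by
            rw [hn]; push_cast; ring
          rw [e2] at h
          exact sq_cancel (mul_ne_zero (pow_ne_zero _ hq0) (pow_ne_zero _ hq0))
            (IsSquare.mul_self _) h
        · exfalso
          have h1 := even_val (mul_ne_zero ha0 hμ0) h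
          rw [Padic.valuation_mul ha0 hμ0, hv, hμv, hn] at h1
          obtain ⟨r, hr⟩ := h1
          push_cast at hr
          omega
      · intro h
        left
        have e2 : (((q : ℤ) ^ k * u : ℤ) : ℚ_[q]) = ((q : ℚ_[q]) ^ n * (q : ℚ_[q]) ^ n) * u := by
          rw [hn]; push_cast; ring
        rw [e2]
        exact (IsSquare.mul_self _).mul h
    · -- odd
      have e1 : ((k : ℕ) : ZMod 2) = 1 := by
        rw [hn]; push_cast; rw [show (2 : ZMod 2) = 0 by decide, zero_mul, zero_add]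
      rw [e1, one_mul]
      have hg1 : Gd q u := (gd_odd hq2 u).2 hu
      have hg2 : Gd q ν := (gd_odd hq2 ν).2 hqν
      have huν : ¬ (q : ℤ) ∣ u * ν := fun h => by
        rcases hpr.dvd_or_dvd h with h | h
        · exact hu h
        · exact hqν h
      rw [← ra_mul hg1 hg2, ra_zero hq2 huν]
      have e2 : (((q : ℤ) ^ k * u : ℤ) : ℚ_[q]) * μ =
          ((q : ℚ_[q]) ^ (n + 1) * (q : ℚ_[q]) ^ (n + 1)) * ((u * ν : ℤ) : ℚ_[q]) := by
        rw [hn, hν]; push_cast; ring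
      constructor
      · rintro (h | h)
        · exfalso
          have h1 := even_val ha0 h
          rw [hv, hn] at h1
          obtain ⟨r, hr⟩ := h1
          push_cast at hr
          omega
        · rw [e2] at h
          exact sq_cancel (mul_ne_zero (pow_ne_zero _ hq0) (pow_ne_zero _ hq0))
            (IsSquare.mul_self _) h
      · intro h
        right
        rw [e2]
        exact (IsSquare.mul_self _).mul h
  refine ⟨L, ?_, fun a _ => hL a, ?_⟩
  · intro a b ha hb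
    obtain ⟨k, u, hu, rfl⟩ := exists_pow (q := q) ha
    obtain ⟨l, v, hv, rfl⟩ := exists_pow (q := q) hb
    have huv : ¬ (q : ℤ) ∣ u * v := fun h => by
      rcases hpr.dvd_or_dvd h with h | h
      · exact hu h
      · exact hv h
    have e1 : (q : ℤ) ^ k * u * ((q : ℤ) ^ l * v) = (q : ℤ) ^ (k + l) * (u * v) := by ring
    rw [e1, key _ _ huv, key _ _ hu, key _ _ hv, ra_mul ((gd_odd hq2 u).2 hu) ((gd_odd hq2 v).2 hv)]
    push_cast
    ring
  · intro a ha
    have := key 0 a ha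
    rw [pow_zero, one_mul, Nat.cast_zero, zero_mul, add_zero] at this
    exact this

/-- products -/
theorem L_prod {L : ℤ → ZMod 2} (h : ∀ a b, a ≠ 0 → b ≠ 0 → L (a * b) = L a + L b) {ι : Type}
    (s : Finset ι) (g : ι → ℤ) (hg : ∀ i ∈ s, g i ≠ 0) : L (∏ i ∈ s, g i) = ∑ i ∈ s, L (g i) := by
  classical
  have h1 : L 1 = 0 := by
    have := h 1 1 one_ne_zero one_ne_zero
    rw [mul_one] at this
    have h2 : ∀ x : ZMod 2, x = x + x → x = 0 := by decide
    exact h2 _ this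
  induction s using Finset.induction_on with
  | empty => rw [Finset.prod_empty, Finset.sum_empty, h1]
  | insert a s ha ih =>
    rw [Finset.prod_insert ha, Finset.sum_insert ha, h _ _ (hg a (Finset.mem_insert_self _ _))
      (Finset.prod_ne_zero_iff.2 fun i hi => hg i (Finset.mem_insert_of_mem hi)),
      ih fun i hi => hg i (Finset.mem_insert_of_mem hi)]

end

end Pool.Agent.N488.SLX
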