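import Pool.Agent.N637.SLX.Stm2
import Pool.Agent.N488.SLX.Lq

/-!
# SLX: the prime discriminants of `m`
-/

set_option autoImplicit false

namespace Pool.Agent.N488.SLX

open Finset
open Pool.Agent.N875.X15 (sq_cancel even_val val_zero val_one not_dvd_of_even Ram)
open Pool.Agent.N916.GB (Po Vt sy)
open Pool.Agent.N637.SLX (Ty pdr)
open Pool.Agent.Y667.RP (mod_of_sq)

/-- the prime discriminants `g p`, `p ∈ V`, of `m` -/
structure Dat (V : Finset ℕ) (g : ℕ → ℤ) (m : ℤ) : Prop where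
  pr : ∀ p ∈ V, p.Prime
  ram : ∀ p : ℕ, p.Prime → (Ram m p ↔ p ∈ V)
  odd : ∀ p, p ≠ 2 → g p = sgp p
  two : 2 ∈ V → (g 2 = -1 ∧ m % 4 = 3) ∨ ((g 2 = 2 ∨ g 2 = -2) ∧ (2 : ℤ) ∣ m)
  prod : ∏ p ∈ V, g p = m
  sqf : Squarefree m

theorem dvd_prod_iff {S : Finset ℕ} (hS : ∀ p ∈ S, Po p) {p : ℕ} (hp : p.Prime) :
    p ∣ ∏ q ∈ S, q ↔ p ∈ S := by
  constructor
  · intro h
    obtain ⟨q, hq, hpq⟩ := (hp.prime.dvd_finsetProd_iff _).1 h
    rw [(Nat.prime_dvd_prime_iff_eq hp (hS q hq).1).1 hpq]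
    exact hq
  · intro h
    exact Finset.dvd_prod_of_mem _ h

theorem prod_sgp {S : Finset ℕ} (hS : ∀ p ∈ S, Po p) :
    ((∏ p ∈ S, p) % 4 = 1 ∧ ∏ p ∈ S, sgp p = ((∏ p ∈ S, p : ℕ) : ℤ)) ∨
    ((∏ p ∈ S, p) % 4 = 3 ∧ ∏ p ∈ S, sgp p = -((∏ p ∈ S, p : ℕ) : ℤ)) := by
  have h1 : (∏ p ∈ S, sgp p) % 4 = 1 := by
    rw [← gd_two]
    refine gd_prod Nat.prime_two _ _ fun p hp => ?_
    rw [gd_two]
    exact sgp_mod (hS p hp).1 (hS p hp).2
  have h2 := prod_abs S
  generalize (∏ p ∈ S, sgp p) = G at h1 h2 ⊢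
  generalize (∏ p ∈ S, p) = P at h2 ⊢
  omega

theorem dat_of_ty {t : Bool} {r s : ZMod 2} {S : Finset ℕ} {m : ℤ} (h : Ty t r s S m) :
    Dat (Vt t S) (pdr r s) m := by
  have hodd : ∀ p : ℕ, p ≠ 2 → pdr r s p = sgp p := by
    intro p hp
    unfold pdr sgp
    rw [if_neg hp]
  have h2S : 2 ∉ S := fun h2 => (h.po 2 h2).2 rfl
  have hG : ∏ p ∈ S, pdr r s p = ∏ p ∈ S, sgp p :=
    Finset.prod_congr rfl fun p hp => hodd p (h.po p hp).2
  have hdv : ∀ p : ℕ, p.Prime → ((p : ℤ) ∣ ((∏ p ∈ S, p : ℕ) : ℤ) ↔ p ∈ S) := by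
    intro p hp
    rw [Int.natCast_dvd_natCast]
    exact dvd_prod_iff h.po hp
  have hpr : ∀ p ∈ Vt t S, p.Prime := by
    intro p hp
    unfold Vt at hp
    split_ifs at hp with ht
    · rw [Finset.mem_insert] at hp
      rcases hp with hp | hp
      · rw [hp]; exact Nat.prime_two
      · exact (h.po p hp).1
    · exact (h.po p hp).1
  have hps := prod_sgp h.po
  obtain ⟨P, hP⟩ : ∃ P : ℕ, P = ∏ p ∈ S, p := ⟨_, rfl⟩
  have hty := h.ty
  rw [← hP] at hps hty
  simp only [← hP] at hdv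
  rcases hty with ⟨ht, hs, hm, hm4⟩ | ⟨ht, hr, hs, hm, hm4⟩ | ⟨ht, hr, hs, hm, hm4⟩ |
    ⟨ht, hr, hs, hm, hm4⟩
  · have hV : Vt t S = S := by unfold Vt; rw [if_neg]; simp [ht]
    refine ⟨hpr, ?_, hodd, ?_, ?_, h.cl.sqf⟩
    · intro p hp
      unfold Ram
      rw [hV, hm, dvd_neg, hdv p hp]
      constructor
      · rintro (h1 | h1)
        · exact h1
        · omega
      · exact fun h1 => Or.inl h1
    · rw [hV]
      exact fun h1 => absurd h1 h2S
    · rw [hV, hG]
      omega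
  all_goals
    have hV : Vt t S = insert 2 S := by unfold Vt; rw [if_pos ht]
  · have hg2 : pdr r s 2 = -1 := by
      unfold pdr
      rw [if_pos rfl, hs, hr, if_neg (by decide), if_pos rfl]
    refine ⟨hpr, ?_, hodd, fun _ => Or.inl ⟨hg2, hm4⟩, ?_, h.cl.sqf⟩
    · intro p hp
      unfold Ram
      rw [hV, Finset.mem_insert, hm, dvd_neg, hdv p hp]
      constructor
      · rintro (h1 | h1)
        · exact Or.inr h1
        · exact Or.inl h1.1
      · rintro (h1 | h1)
        · exact Or.inr ⟨h1, by omega⟩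
        · exact Or.inl h1
    · rw [hV, Finset.prod_insert h2S, hG, hg2]
      omega
  · have hg2 : pdr r s 2 = -2 := by
      unfold pdr
      rw [if_pos rfl, hs, hr, if_neg (by decide), if_neg (by decide)]
    refine ⟨hpr, ?_, hodd, fun _ => Or.inr ⟨Or.inr hg2, by rw [hm]; exact ⟨-P, by ring⟩⟩, ?_,
      h.cl.sqf⟩
    · intro p hp
      unfold Ram
      have hpp := Nat.prime_iff_prime_int.1 hp
      rw [hV, Finset.mem_insert, ← hdv p hp, hm, dvd_neg]
      constructor
      · rintro (h1 | h1)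
        · rcases hpp.dvd_or_dvd h1 with h2 | h2
          · left
            exact (Nat.prime_dvd_prime_iff_eq hp Nat.prime_two).1 (by exact_mod_cast h2)
          · exact Or.inr h2
        · exact Or.inl h1.1
      · rintro (h1 | h1)
        · exact Or.inr ⟨h1, by omega⟩
        · exact Or.inl (h1.mul_left 2)
    · rw [hV, Finset.prod_insert h2S, hG, hg2]
      omega
  · have hg2 : pdr r s 2 = 2 := by
      unfold pdr
      rw [if_pos rfl, hs, if_pos rfl]
    refine ⟨hpr, ?_, hodd, fun _ => Or.inr ⟨Or.inl hg2, by rw [hm]; exact ⟨-P, by ring⟩⟩, ?_,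
      h.cl.sqf⟩
    · intro p hp
      unfold Ram
      have hpp := Nat.prime_iff_prime_int.1 hp
      rw [hV, Finset.mem_insert, ← hdv p hp, hm, dvd_neg]
      constructor
      · rintro (h1 | h1)
        · rcases hpp.dvd_or_dvd h1 with h2 | h2
          · left
            exact (Nat.prime_dvd_prime_iff_eq hp Nat.prime_two).1 (by exact_mod_cast h2)
          · exact Or.inr h2
        · exact Or.inl h1.1
      · rintro (h1 | h1)
        · exact Or.inr ⟨h1, by omega⟩
        · exact Or.inl (h1.mul_left 2)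
    · rw [hV, Finset.prod_insert h2S, hG, hg2]
      omega

section

variable {V : Finset ℕ} {g : ℕ → ℤ} {m : ℤ}

theorem Dat.m4 (D : Dat V g m) (h2 : 2 ∉ V) : m % 4 = 1 := by
  by_contra h
  exact h2 ((D.ram 2 Nat.prime_two).1 (Or.inr ⟨rfl, h⟩))

theorem Dat.ne (D : Dat V g m) : ∀ p ∈ V, g p ≠ 0 := by
  intro p hp h0
  have h1 : (0 : ℤ) ∣ m := by
    rw [← h0, ← D.prod]
    exact Finset.dvd_prod_of_mem _ hp
  exact D.sqf.ne_zero (zero_dvd_iff.1 h1)

theorem Dat.dvd (D : Dat V g m) {p : ℕ} (hp : p ∈ V) (h2 : p ≠ 2) : (p : ℤ) ∣ m := by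
  rcases (D.ram p (D.pr p hp)).2 hp with h | h
  · exact h
  · exact absurd h.1 h2

/-- **The decomposition of a squarefree number into prime discriminants.** -/
theorem Dat.decomp (D : Dat V g m) {e : ℤ} (he : Squarefree e)
    (hsup : ∀ p : ℕ, p.Prime → (p : ℤ) ∣ e → p ∈ V) (h4 : 2 ∉ V → e % 4 = 1)
    (h2 : 2 ∈ V → IsSquare (e : ℚ_[2]) ∨ IsSquare ((e : ℚ_[2]) * m)) :
    ∃ X ⊆ V, ∏ p ∈ X, g p = e ∧ (2 ∈ V → 2 ∉ X → IsSquare (e : ℚ_[2])) ∧
      (2 ∈ X → IsSquare ((e : ℚ_[2]) * m)) := by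
  have he0 := he.ne_zero
  have hm0 := D.sqf.ne_zero
  have he0' : (e : ℚ_[2]) ≠ 0 := by exact_mod_cast he0
  have hm0' : (m : ℚ_[2]) ≠ 0 := by exact_mod_cast hm0
  set X0 := e.natAbs.primeFactors.erase 2 with hX0
  have hX0V : X0 ⊆ V := fun p hp => hsup p (odd_pf hp).1 (odd_pf hp).2.2
  have h2X0 : 2 ∉ X0 := Finset.notMem_erase _ _
  have hprod : ∏ p ∈ X0, g p = oe e :=
    Finset.prod_congr rfl fun p hp => D.odd p (odd_pf hp).2.1
  have hprod2 : ∏ p ∈ insert 2 X0, g p = g 2 * oe e := by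
    rw [Finset.prod_insert h2X0, hprod]
  have hcases := oe_cases he
  have hoe := oe_mod e
  by_cases hV : 2 ∈ V
  swap
  · have h5 := h4 hV
    refine ⟨X0, hX0V, ?_, fun h => absurd h hV, fun h => absurd h h2X0⟩
    rw [hprod]
    omega
  have hX1V : insert 2 X0 ⊆ V := Finset.insert_subset hV hX0V
  -- parity
  have hpar1 : (2 : ℤ) ∣ e → ¬ IsSquare (e : ℚ_[2]) := fun h => not_sq (p := 2) he h
  have hpar2 : ¬ (2 : ℤ) ∣ e → (2 : ℤ) ∣ m → ¬ IsSquare ((e : ℚ_[2]) * m) := by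
    intro h1 h2 h3
    have h4 := even_val (mul_ne_zero he0' hm0') h3
    rw [Padic.valuation_mul he0' hm0', val_zero (p := 2) h1, val_one (p := 2) h2 D.sqf] at h4
    exact absurd h4 (by decide)
  have hpar3 : (2 : ℤ) ∣ e → ¬ (2 : ℤ) ∣ m → ¬ IsSquare ((e : ℚ_[2]) * m) := by
    intro h1 h2 h3
    have h4 := even_val (mul_ne_zero he0' hm0') h3
    rw [Padic.valuation_mul he0' hm0', val_zero (p := 2) h2, val_one (p := 2) h1 he] at h4
    exact absurd h4 (by decide)
  rcases D.two hV with ⟨hg2, hm4⟩ | ⟨hg2, hm2⟩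
  · -- `m = 3 mod 4`
    have hm2 : ¬ (2 : ℤ) ∣ m := by omega
    have he2 : ¬ (2 : ℤ) ∣ e := by
      intro h
      rcases h2 hV with h5 | h5
      · exact hpar1 h h5
      · exact hpar3 h hm2 h5
    rcases hcases with ⟨-, h5 | h5⟩ | ⟨h5, -⟩
    · refine ⟨X0, hX0V, by rw [hprod]; exact h5.symm, fun _ _ => ?_, fun h => absurd h h2X0⟩
      refine (h2 hV).resolve_right fun h6 => ?_
      have h7 := mod_of_sq (d := e * m) (by
        intro h
        rcases Int.prime_two.dvd_or_dvd h with h | h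
        · exact he2 h
        · exact hm2 h) (by push_cast; exact h6)
      have h8 : e % 4 * (m % 4) % 4 = 1 := by
        rw [← Int.mul_emod]
        omega
      rw [hm4] at h8
      omega
    · refine ⟨insert 2 X0, hX1V, by rw [hprod2, hg2]; omega, fun _ h =>
        absurd (Finset.mem_insert_self _ _) h, fun _ => ?_⟩
      refine (h2 hV).resolve_left fun h6 => ?_
      have := mod_of_sq he2 h6
      omega
    · exact absurd h5 he2
  · -- `m` even
    rcases hcases with ⟨h5, h6⟩ | ⟨h5, h6⟩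
    · have h7 := (h2 hV).resolve_right (hpar2 h5 hm2)
      have h8 := mod_of_sq h5 h7
      refine ⟨X0, hX0V, ?_, fun _ _ => h7, fun h => absurd h h2X0⟩
      rw [hprod]
      omega
    · have h7 := (h2 hV).resolve_left (hpar1 h5)
      refine ⟨insert 2 X0, hX1V, ?_, fun _ h => absurd (Finset.mem_insert_self _ _) h,
        fun _ => h7⟩
      rw [hprod2]
      -- the product of the other prime discriminants
      obtain ⟨M, hM, hM4⟩ : ∃ M : ℤ, m = g 2 * M ∧ M % 4 = 1 := by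
        refine ⟨∏ p ∈ V.erase 2, g p, ?_, ?_⟩
        · rw [Finset.mul_prod_erase _ _ hV, D.prod]
        · rw [← gd_two]
          refine gd_prod Nat.prime_two _ _ fun p hp => ?_
          rw [gd_two, D.odd p (Finset.ne_of_mem_erase hp)]
          exact sgp_mod (D.pr p (Finset.mem_of_mem_erase hp)) (Finset.ne_of_mem_erase hp)
      have key : ∀ a b : ℤ, (a = 1 ∨ a = -1) → (b = 1 ∨ b = -1) → e = 2 * (a * oe e) →
          g 2 = 2 * b → a = b := by
        intro a b ha hb h8 h9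
        have h10 : IsSquare (((a * b * (oe e * M) : ℤ)) : ℚ_[2]) := by
          have e1 : (e : ℚ_[2]) * m = (2 * 2) * (((a * b * (oe e * M) : ℤ)) : ℚ_[2]) := by
            rw [hM, h9]
            nth_rewrite 1 [h8]
            push_cast
            ring
          rw [e1] at h7
          exact sq_cancel (mul_ne_zero two_ne_zero two_ne_zero) (IsSquare.mul_self _) h7
        have h11 : oe e * M % 4 = 1 := by
          rw [Int.mul_emod, hoe, hM4]
          norm_num
        generalize oe e * M = Z at h10 h11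
        rcases ha with rfl | rfl <;> rcases hb with rfl | rfl
        · rfl
        · exfalso
          have := mod_of_sq (d := 1 * -1 * Z) (by omega) h10
          omega
        · exfalso
          have := mod_of_sq (d := -1 * 1 * Z) (by omega) h10
          omega
        · rfl
      rcases h6 with h6 | h6 <;> rcases hg2 with h8 | h8
      · rw [h8]; exact h6.symm
      · exfalso
        have := key 1 (-1) (Or.inl rfl) (Or.inr rfl) (by rw [one_mul]; exact h6) (by rw [h8]; rfl)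
        omega
      · exfalso
        have := key (-1) 1 (Or.inr rfl) (Or.inl rfl) (by rw [← mul_assoc]; exact h6)
          (by rw [h8]; rfl)
        omega
      · rw [h8]; exact h6.symm

end

end Pool.Agent.N488.SLX
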