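import Pool.Agent.N488.SLX.Dat

/-!
# SLX: the symbols in terms of the local quotients
-/

set_option autoImplicit false

namespace Pool.Agent.N488.SLX

open Finset
open Pool.Agent.N875.X15 (sq_cancel even_val val_zero val_one not_dvd_of_even Ram)
open Pool.Agent.N916.GB (Po Vt sy)
open Pool.Agent.N637.SLX (Ty pdr eS)
open Pool.Agent.Y703.CQ (nr)
open Pool.Agent.N973.ND (uu)

theorem jac_iff {q : ℕ} [Fact q.Prime] {a : ℤ} (ha : ¬ (q : ℤ) ∣ a) :
    jacobiSym a q = 1 ↔ IsSquare ((a : ℤ) : ZMod q) := by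
  rw [← jacobiSym.legendreSym.to_jacobiSym]
  exact legendreSym.eq_one_iff q (fun h0 => ha ((ZMod.intCast_zmod_eq_zero_iff_dvd a q).1 h0))

theorem nr_jac {q : ℕ} [Fact q.Prime] {n : ℕ} (hn : ¬ q ∣ n) :
    nr q n = if jacobiSym n q = 1 then 0 else 1 := by
  unfold nr
  have h := jac_iff (q := q) (a := (n : ℤ)) (by exact_mod_cast hn)
  rw [Int.cast_natCast] at h
  by_cases h1 : IsSquare (n : ZMod q)
  · rw [if_pos h1, if_pos (h.2 h1)]
  · rw [if_neg h1, if_neg (fun h2 => h1 (h.1 h2))]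

theorem nr_ra {q : ℕ} [Fact q.Prime] (hq2 : q ≠ 2) {n : ℕ} (hn : ¬ q ∣ n) :
    nr q n = ra q (n : ℤ) := by
  rw [nr_jac hn]
  unfold ra
  rw [ch_odd hq2]

theorem nr_recip {p q : ℕ} (hp : p.Prime) (hq : q.Prime) (hq2 : q ≠ 2) (hpq : p ≠ q) :
    nr q p = ra p (sgp q) := by
  have : Fact q.Prime := ⟨hq⟩
  have h : ¬ q ∣ p := fun h => hpq ((Nat.prime_dvd_prime_iff_eq hq hp).1 h).symm
  rw [nr_jac h]
  unfold ra
  rw [recip_ch hp hq hq2]

theorem ra_neg_one {q : ℕ} [hq : Fact q.Prime] (hq2 : q ≠ 2) : ra q (-1) = uu q := by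
  unfold ra uu
  rw [ch_odd hq2, jacobiSym.at_neg_one (hq.out.odd_of_ne_two hq2)]
  have h : q % 4 = 1 ∨ q % 4 = 3 := by
    have := Nat.odd_iff.1 (hq.out.odd_of_ne_two hq2)
    omega
  rcases h with h | h
  · rw [ZMod.χ₄_nat_one_mod_four h, if_pos rfl, if_neg (by omega)]
  · rw [ZMod.χ₄_nat_three_mod_four h, if_neg (by decide), if_pos h]

theorem not_dvd_two {q : ℕ} (hq : q.Prime) (hq2 : q ≠ 2) : ¬ q ∣ 2 := fun h =>
  hq2 ((Nat.prime_dvd_prime_iff_eq hq Nat.prime_two).1 h)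

theorem sy_ra {t : Bool} {r s : ZMod 2} {S : Finset ℕ} {m : ℤ} (h : Ty t r s S m) {p q : ℕ}
    (hp : p ∈ Vt t S) (hq : q ∈ Vt t S) (hpq : p ≠ q) : sy r s q p = ra q (pdr r s p) := by
  have D := dat_of_ty h
  have hpp := D.pr p hp
  have hqp := D.pr q hq
  by_cases hp2 : p = 2
  · subst hp2
    have hq2 : q ≠ 2 := Ne.symm hpq
    have : Fact q.Prime := ⟨hqp⟩
    have ht : t = true := by
      by_contra ht
      unfold Vt at hp
      rw [if_neg ht] at hp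
      exact (h.po 2 hp).2 rfl
    have e1 := nr_ra hq2 (not_dvd_two hqp hq2)
    rw [Nat.cast_ofNat] at e1
    have e2 := ra_neg_one (q := q) hq2
    have g1 : Gd q (-1) := by
      rw [gd_odd hq2, dvd_neg]
      intro h3
      have h4 : q ∣ 1 := by exact_mod_cast h3
      exact hqp.one_lt.ne' (Nat.dvd_one.1 h4)
    have g2 : Gd q 2 := by
      rw [gd_odd hq2]
      intro h3
      exact not_dvd_two hqp hq2 (by exact_mod_cast h3)
    have e3 := ra_mul (q := q) g1 g2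
    unfold sy pdr
    rw [if_pos rfl, if_pos rfl]
    rcases h.ty with ⟨h1, -⟩ | ⟨-, hr, hs, -⟩ | ⟨-, hr, hs, -⟩ | ⟨-, hr, hs, -⟩
    · rw [ht] at h1
      exact absurd h1 (by decide)
    · rw [hr, hs, if_neg (by decide), if_pos rfl, e2]
      ring
    · rw [hr, hs, if_neg (by decide), if_neg (by decide), e1, ← e2, one_mul, one_mul,
        show (-2 : ℤ) = -1 * 2 by norm_num, e3, add_comm]
    · rw [hr, hs, if_pos rfl, e1]
      ring
  · unfold sy
    rw [if_neg hp2, nr_recip hqp hpp hp2 hpq.symm]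
    congr 1
    unfold pdr sgp
    rw [if_neg hp2]

theorem sy_nat {r s : ZMod 2} {p q : ℕ} (hp : p.Prime) (hq : q.Prime) (hp2 : p ≠ 2)
    (hpq : p ≠ q) : sy r s q p = ra p (q : ℤ) := by
  have : Fact p.Prime := ⟨hp⟩
  unfold sy
  rw [if_neg hp2]
  exact nr_ra hp2 (fun h => hpq ((Nat.prime_dvd_prime_iff_eq hp hq).1 h))

/-- the indicator function -/
def ind (X : Finset ℕ) (p : ℕ) : ZMod 2 := if p ∈ X then 1 else 0

theorem sum_ind {V X : Finset ℕ} (h : X ⊆ V) (f : ℕ → ZMod 2) :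
    ∑ p ∈ X, f p = ∑ p ∈ V, ind X p * f p := by
  unfold ind
  simp only [ite_mul, one_mul, zero_mul]
  rw [← Finset.sum_filter]
  congr 1
  ext p
  rw [Finset.mem_filter]
  exact ⟨fun h1 => ⟨h h1, h1⟩, fun h1 => h1.2⟩

theorem prod_ind {V X : Finset ℕ} (h : X ⊆ V) (f : ℕ → ℤ) :
    (∏ p : {x : ℕ // x ∈ V}, if ind X p.1 = 1 then f p.1 else 1) = ∏ p ∈ X, f p := by
  rw [Finset.prod_coe_sort V (fun p => if ind X p = 1 then f p else 1), ← Finset.prod_filter]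
  congr 1
  ext p
  rw [Finset.mem_filter]
  unfold ind
  constructor
  · rintro ⟨-, h1⟩
    by_contra h2
    rw [if_neg h2] at h1
    exact absurd h1 (by decide)
  · intro h1
    exact ⟨h h1, by rw [if_pos h1]⟩

section

variable {V : Finset ℕ} {g : ℕ → ℤ} {m : ℤ} {q : ℕ} [hqf : Fact q.Prime]

theorem Dat.gd (D : Dat V g m) (hq2 : q ≠ 2) {p : ℕ} (hp : p ∈ V) (hpq : p ≠ q) :
    ¬ (q : ℤ) ∣ g p := by
  have hqp := hqf.out
  by_cases hp2 : p = 2
  · subst hp2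
    intro h
    have h3 : q ∣ 2 := by
      rcases D.two hp with ⟨h1, -⟩ | ⟨h1 | h1, -⟩
      · rw [h1, dvd_neg] at h
        have h4 : q ∣ 1 := by exact_mod_cast h
        exact h4.trans (one_dvd _)
      · rw [h1] at h
        exact_mod_cast h
      · rw [h1, dvd_neg] at h
        exact_mod_cast h
    exact not_dvd_two hqp hq2 h3
  · rw [D.odd p hp2, dvd_sgp]
    exact fun h => hpq ((Nat.prime_dvd_prime_iff_eq hqp (D.pr p hp)).1 h).symm

/-- the first local quotient -/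
theorem Dat.plus (D : Dat V g m) (hq : q ∈ V) (hq2 : q ≠ 2) : ∃ L : ℤ → ZMod 2,
    (∀ a b, a ≠ 0 → b ≠ 0 → L (a * b) = L a + L b) ∧
    (∀ a, a ≠ 0 → (L a = 0 ↔ IsSquare (a : ℚ_[q]) ∨ IsSquare ((a : ℚ_[q]) * m))) ∧
    (∀ a, ¬ (q : ℤ) ∣ a → L a = ra q a) ∧
    L (g q) = ∑ p ∈ V.erase q, ra q (g p) ∧
    ∀ X ⊆ V, L (∏ p ∈ X, g p) = ∑ p ∈ V.erase q, (ind X p + ind X q) * ra q (g p) := by
  obtain ⟨L, h1, h2, h3⟩ := exists_L hq2 D.sqf (D.dvd hq hq2)
  have hgq : L (g q) = ∑ p ∈ V.erase q, ra q (g p) := by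
    have h4 : L m = 0 := (h2 m D.sqf.ne_zero).2 (Or.inr (IsSquare.mul_self _))
    rw [← D.prod, L_prod h1 _ _ D.ne, ← Finset.add_sum_erase _ _ hq] at h4
    have h5 : ∑ p ∈ V.erase q, L (g p) = ∑ p ∈ V.erase q, ra q (g p) :=
      Finset.sum_congr rfl fun p hp => h3 _ (D.gd hq2 (Finset.mem_of_mem_erase hp)
        (Finset.ne_of_mem_erase hp))
    rw [h5] at h4
    have h6 : ∀ a b : ZMod 2, a + b = 0 → a = b := by decide
    exact h6 _ _ h4
  refine ⟨L, h1, h2, h3, hgq, fun X hX => ?_⟩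
  rw [L_prod h1 _ _ fun p hp => D.ne p (hX hp), sum_ind hX, ← Finset.add_sum_erase _ _ hq, hgq,
    Finset.mul_sum, ← Finset.sum_add_distrib]
  refine Finset.sum_congr rfl fun p hp => ?_
  rw [h3 _ (D.gd hq2 (Finset.mem_of_mem_erase hp) (Finset.ne_of_mem_erase hp))]
  ring

/-- the second local quotient -/
theorem Dat.minus (D : Dat V g m) (hq : q ∈ V) (hq2 : q ≠ 2) : ∃ L : ℤ → ZMod 2,
    (∀ a, a ≠ 0 → (L a = 0 ↔ IsSquare (a : ℚ_[q]) ∨ IsSquare ((a : ℚ_[q]) * (-m)))) ∧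
    ∀ Y ⊆ V, L (∏ p ∈ Y, (p : ℤ)) =
      ∑ p ∈ V.erase q, (ind Y p * ra q (p : ℤ) + ind Y q * ra q (g p)) := by
  have hqp := hqf.out
  have hsm : Squarefree (-m) := fun x hx => D.sqf x (by rwa [dvd_neg] at hx)
  obtain ⟨L, h1, h2, h3⟩ := exists_L hq2 hsm ((dvd_neg).2 (D.dvd hq hq2))
  have hneg : IsSquare (((-(sgp q * q) : ℤ)) : ℚ_[q]) := by
    unfold sgp
    split_ifs with h6
    · have h7 : IsSquare ((-1 : ℤ) : ℚ_[q]) := by
        refine sq_of_zmod hq2 ?_ ?_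
        · intro h8
          have h9 : q ∣ 1 := by
            rw [dvd_neg] at h8
            exact_mod_cast h8
          exact hqp.one_lt.ne' (Nat.dvd_one.1 h9)
        · push_cast
          rw [ZMod.exists_sq_eq_neg_one_iff]
          omega
      have e3 : (((-((q : ℤ) * q) : ℤ)) : ℚ_[q]) = ((-1 : ℤ) : ℚ_[q]) * (q * q) := by
        push_cast
        ring
      rw [e3]
      exact h7.mul (IsSquare.mul_self _)
    · have e3 : (((-(-(q : ℤ) * q) : ℤ)) : ℚ_[q]) = (q : ℚ_[q]) * q := by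
        push_cast
        ring
      rw [e3]
      exact IsSquare.mul_self _
  have hq0 : (q : ℤ) ≠ 0 := by exact_mod_cast hqp.ne_zero
  have hgq0 : g q ≠ 0 := D.ne q hq
  have hP0 : ∏ p ∈ V.erase q, g p ≠ 0 :=
    Finset.prod_ne_zero_iff.2 fun p hp => D.ne p (Finset.mem_of_mem_erase hp)
  have hLq : L (q : ℤ) = ∑ p ∈ V.erase q, ra q (g p) := by
    have h4 : L (-m) = 0 := (h2 (-m) (neg_ne_zero.2 D.sqf.ne_zero)).2 (by
      right
      push_cast
      exact IsSquare.mul_self _)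
    have e1 : -m = -(g q) * ∏ p ∈ V.erase q, g p := by
      rw [← D.prod, ← Finset.mul_prod_erase _ _ hq]
      ring
    rw [e1, h1 _ _ (neg_ne_zero.2 hgq0) hP0, L_prod h1 _ _ fun p hp =>
      D.ne p (Finset.mem_of_mem_erase hp)] at h4
    have h5 : ∑ p ∈ V.erase q, L (g p) = ∑ p ∈ V.erase q, ra q (g p) :=
      Finset.sum_congr rfl fun p hp => h3 _ (D.gd hq2 (Finset.mem_of_mem_erase hp)
        (Finset.ne_of_mem_erase hp))
    rw [h5] at h4
    have h6 : L (-(g q)) + L (q : ℤ) = 0 := by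
      rw [← h1 _ _ (neg_ne_zero.2 hgq0) hq0]
      refine (h2 _ (mul_ne_zero (neg_ne_zero.2 hgq0) hq0)).2 (Or.inl ?_)
      rw [D.odd q hq2, neg_mul]
      exact hneg
    have h7 : ∀ a b c : ZMod 2, a + b = 0 → a + c = 0 → c = b := by decide
    exact h7 _ _ _ h4 h6
  refine ⟨L, fun a ha => ?_, fun Y hY => ?_⟩
  · rw [h2 a ha]
    push_cast
    rfl
  · rw [L_prod h1 _ _ fun p hp => by exact_mod_cast (D.pr p (hY hp)).ne_zero, sum_ind hY,
      ← Finset.add_sum_erase _ _ hq, hLq, Finset.mul_sum, ← Finset.sum_add_distrib]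
    refine Finset.sum_congr rfl fun p hp => ?_
    have h8 : ¬ (q : ℤ) ∣ (p : ℤ) := by
      intro h
      exact Finset.ne_of_mem_erase hp ((Nat.prime_dvd_prime_iff_eq hqp
        (D.pr p (Finset.mem_of_mem_erase hp))).1 (by exact_mod_cast h)).symm
    rw [h3 _ h8]
    ring

end

end Pool.Agent.N488.SLX
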